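import Pool.Agent.R974.AT.Defs

/-!
# Deterministic facts on the longest excursion (MP_097655_pr, piece RDET of helper974)
-/

set_option autoImplicit false

open Filter Topology Set
open scoped NNReal

namespace Pool.Agent.R74.AT

open R974.AT

/-- intermediate values between two times -/
theorem ivt_nn {w : ℝ≥0 → ℝ} (hw : Continuous w) {a b : ℝ≥0} (hab : a ≤ b) {y : ℝ}
    (h : (w a ≤ y ∧ y ≤ w b) ∨ (w b ≤ y ∧ y ≤ w a)) : ∃ u, a ≤ u ∧ u ≤ b ∧ w u = y := by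
  rcases h with ⟨h1, h2⟩ | ⟨h1, h2⟩
  · obtain ⟨u, ⟨hu1, hu2⟩, hu3⟩ := intermediate_value_Icc hab hw.continuousOn ⟨h1, h2⟩
    exact ⟨u, hu1, hu2, hu3⟩
  · obtain ⟨u, ⟨hu1, hu2⟩, hu3⟩ := intermediate_value_Icc' hab hw.continuousOn ⟨h1, h2⟩
    exact ⟨u, hu1, hu2, hu3⟩

/-- an excursion above the level `y` around the time `b` -/
theorem exc_exists {w : ℝ≥0 → ℝ} (hw : Continuous w) {a b c : ℝ≥0} (hab : a ≤ b) (hbc : b ≤ c)
    {y : ℝ} (ha : w a ≤ y) (hb : y < w b) (hc : w c ≤ y) :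
    ∃ p q : ℝ≥0, a ≤ p ∧ p < q ∧ q ≤ c ∧ w p = w q ∧ ∀ u, p < u → u < q → w u ≠ w p := by
  have hc1 : IsCompact (Icc a b ∩ w ⁻¹' {y}) :=
    isCompact_Icc.inter_right (isClosed_singleton.preimage hw)
  have hc2 : IsCompact (Icc b c ∩ w ⁻¹' {y}) :=
    isCompact_Icc.inter_right (isClosed_singleton.preimage hw)
  obtain ⟨u1, h1, h2, h3⟩ := ivt_nn hw hab (y := y) (Or.inl ⟨ha, hb.le⟩)
  obtain ⟨u2, h4, h5, h6⟩ := ivt_nn hw hbc (y := y) (Or.inr ⟨hc, hb.le⟩)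
  obtain ⟨p, ⟨⟨hp1, hp2⟩, hp3⟩, hp4⟩ := hc1.exists_isGreatest ⟨u1, ⟨h1, h2⟩, h3⟩
  obtain ⟨q, ⟨⟨hq1, hq2⟩, hq3⟩, hq4⟩ := hc2.exists_isLeast ⟨u2, ⟨h4, h5⟩, h6⟩
  have hp3' : w p = y := hp3
  have hq3' : w q = y := hq3
  have hpb : p < b := lt_of_le_of_ne hp2 (fun h => by rw [h] at hp3'; exact hb.ne' hp3')
  refine ⟨p, q, hp1, hpb.trans_le hq1, hq2, hp3'.trans hq3'.symm, fun u hu1 hu2 hu3 => ?_⟩
  rw [hp3'] at hu3
  rcases le_total u b with hub | hub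
  · exact absurd (hp4 (show u ∈ Icc a b ∩ w ⁻¹' {y} from ⟨⟨hp1.trans hu1.le, hub⟩, hu3⟩))
      (not_le.2 hu1)
  · exact absurd (hq4 (show u ∈ Icc b c ∩ w ⁻¹' {y} from ⟨⟨hub, hu2.le.trans hq2⟩, hu3⟩))
      (not_le.2 hu2)

theorem exc_bdd (w : ℝ≥0 → ℝ) (t : ℝ≥0) : BddAbove (Exc w t) := by
  refine ⟨t, ?_⟩
  rintro l ⟨p, q, -, h2, -, -, rfl⟩
  have h3 : (q : ℝ) ≤ t := by exact_mod_cast h2
  have h4 : (0 : ℝ) ≤ p := p.2
  linarith

theorem exc_mono (w : ℝ≥0 → ℝ) {s t : ℝ≥0} (h : s ≤ t) : Exc w s ⊆ Exc w t := by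
  rintro l ⟨p, q, h1, h2, h3⟩
  exact ⟨p, q, h1, h2.trans h, h3⟩

theorem sp_closed {w : ℝ≥0 → ℝ} (hw : Continuous w) (t : ℝ≥0) : IsClosed (Sp w t) := by
  have hK : IsCompact ((Icc (0 : ℝ≥0) t ×ˢ Icc (0 : ℝ≥0) t) ∩
      {z : ℝ≥0 × ℝ≥0 | z.1 ≤ z.2 ∧ w z.1 = w z.2}) := by
    refine (isCompact_Icc.prod isCompact_Icc).inter_right ?_
    exact (isClosed_le continuous_fst continuous_snd).inter
      (isClosed_eq (hw.comp continuous_fst) (hw.comp continuous_snd))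
  have hf : Continuous (fun z : ℝ≥0 × ℝ≥0 => (z.2 : ℝ) - z.1) := by fun_prop
  have h := (hK.image hf).isClosed
  have he : Sp w t = (fun z : ℝ≥0 × ℝ≥0 => (z.2 : ℝ) - z.1) ''
      ((Icc (0 : ℝ≥0) t ×ˢ Icc (0 : ℝ≥0) t) ∩
      {z : ℝ≥0 × ℝ≥0 | z.1 ≤ z.2 ∧ w z.1 = w z.2}) := by
    ext x
    constructor
    · rintro ⟨s, u, h1, h2, h3, rfl⟩
      exact ⟨(s, u), ⟨⟨⟨bot_le, h1.trans h2⟩, ⟨bot_le, h2⟩⟩, ⟨h1, h3⟩⟩, rfl⟩
    · rintro ⟨⟨s, u⟩, ⟨⟨-, ⟨-, h2⟩⟩, ⟨h1, h3⟩⟩, rfl⟩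
      exact ⟨s, u, h1, h2, h3, rfl⟩
  rw [he]; exact h

/-- a length shorter than an excursion is a span -/
theorem mem_sp_of_lt_exc {w : ℝ≥0 → ℝ} (hw : Continuous w) {t : ℝ≥0} {l h : ℝ}
    (hl : l ∈ Exc w t) (h0 : 0 ≤ h) (hhl : h < l) : h ∈ Sp w t := by
  obtain ⟨p, q, hpq, hqt, hw1, hw2, rfl⟩ := hl
  rcases h0.eq_or_lt with h0 | h0
  · exact ⟨p, p, le_rfl, hpq.le.trans hqt, rfl, by rw [← h0]; simp⟩
  lift h to ℝ≥0 using h0.le
  have h0' : 0 < h := by exact_mod_cast h0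
  have hsum : p + h < q := by
    have : ((p + h : ℝ≥0) : ℝ) < q := by push_cast; linarith
    exact_mod_cast this
  obtain ⟨v, hv⟩ : ∃ v, q = v + h := ⟨q - h, (tsub_add_cancel_of_le
    ((le_add_self : h ≤ p + h).trans hsum.le)).symm⟩
  have hpv : p < v := by
    rw [hv] at hsum
    exact lt_of_add_lt_add_right hsum
  have hvq : v < q := by rw [hv]; exact lt_add_of_pos_right v h0'
  have hp_lt : p < p + h := lt_add_of_pos_right p h0'
  set f : ℝ≥0 → ℝ := fun s => w (s + h) - w s with hf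
  have hfc : Continuous f := by
    have : Continuous (fun s : ℝ≥0 => s + h) := by fun_prop
    exact (hw.comp this).sub hw
  have key : ∃ s, p ≤ s ∧ s ≤ v ∧ f s = 0 := by
    by_contra hcon
    push Not at hcon
    rcases lt_or_ge (f p) 0 with hfp | hfp
    · have hfv : f v < 0 := by
        by_contra hh
        push Not at hh
        obtain ⟨s, hs1, hs2, hs3⟩ := ivt_nn hfc hpv.le (y := 0) (Or.inl ⟨hfp.le, hh⟩)
        exact hcon s hs1 hs2 hs3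
      have h1 : w (p + h) < w p := by simpa [hf] using hfp
      have h2 : w p < w v := by
        have : w (v + h) < w v := by simpa [hf] using hfv
        rw [← hv, ← hw1] at this
        exact this
      rcases le_total (p + h) v with hc | hc
      · obtain ⟨s, hs1, hs2, hs3⟩ := ivt_nn hw hc (y := w p) (Or.inl ⟨h1.le, h2.le⟩)
        exact hw2 s (hp_lt.trans_le hs1) (hs2.trans_lt hvq) hs3
      · obtain ⟨s, hs1, hs2, hs3⟩ := ivt_nn hw hc (y := w p) (Or.inr ⟨h1.le, h2.le⟩)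
        exact hw2 s (hpv.trans_le hs1) (hs2.trans_lt hsum) hs3
    · have hfp' : 0 < f p := lt_of_le_of_ne hfp (Ne.symm (hcon p le_rfl hpv.le))
      have hfv : 0 < f v := by
        by_contra hh
        push Not at hh
        obtain ⟨s, hs1, hs2, hs3⟩ := ivt_nn hfc hpv.le (y := 0) (Or.inr ⟨hh, hfp⟩)
        exact hcon s hs1 hs2 hs3
      have h1 : w p < w (p + h) := by simpa [hf] using hfp'
      have h2 : w v < w p := by
        have : w v < w (v + h) := by simpa [hf] using hfv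
        rw [← hv, ← hw1] at this
        exact this
      rcases le_total (p + h) v with hc | hc
      · obtain ⟨s, hs1, hs2, hs3⟩ := ivt_nn hw hc (y := w p) (Or.inr ⟨h2.le, h1.le⟩)
        exact hw2 s (hp_lt.trans_le hs1) (hs2.trans_lt hvq) hs3
      · obtain ⟨s, hs1, hs2, hs3⟩ := ivt_nn hw hc (y := w p) (Or.inl ⟨h2.le, h1.le⟩)
        exact hw2 s (hpv.trans_le hs1) (hs2.trans_lt hsum) hs3
  obtain ⟨s, hs1, hs2, hs3⟩ := key
  refine ⟨s, s + h, le_self_add, ?_, ?_, ?_⟩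
  · calc s + h ≤ v + h := by gcongr
      _ = q := hv.symm
      _ ≤ t := hqt
  · have : w (s + h) - w s = 0 := hs3
    linarith
  · push_cast; ring

theorem rdet : S_RDET := by
  intro w hw hosc
  -- (A)
  have hA : 0 < RR w 1 := by
    obtain ⟨-, -⟩ := hosc 1 one_pos
    obtain ⟨u1, h1, h2, h3⟩ := (hosc 1 one_pos).1
    obtain ⟨u2, h4, h5, h6⟩ := (hosc (1 - u1) (tsub_pos_of_lt h2)).2
    have h7 : (1 : ℝ≥0) - (1 - u1) = u1 := tsub_tsub_cancel_of_le h2.le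
    rw [h7] at h4
    obtain ⟨p, q, g1, g2, g3, g4, g5⟩ := exc_exists hw h4.le h5.le
      (y := w 1) h3.le h6 le_rfl
    have hmem : (q : ℝ) - p ∈ Exc w 1 := ⟨p, q, g2, g3, g4, g5, rfl⟩
    have h8 : (q : ℝ) - p ≤ RR w 1 := le_csSup (exc_bdd w 1) hmem
    have h9 : (p : ℝ) < q := by exact_mod_cast g2
    linarith
  have hne : (Exc w 1).Nonempty := by
    by_contra h
    rw [not_nonempty_iff_eq_empty] at h
    have : RR w 1 = 0 := by unfold RR; rw [h]; exact Real.sSup_empty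
    exact hA.ne' this
  refine ⟨hA, ?_, ?_⟩
  · -- (B)
    set R := RR w 1 with hR
    obtain ⟨e, he0, he1, he2⟩ : ∃ e : ℝ≥0, 0 < e ∧ 2 * (e : ℝ) ≤ R ∧ e ≤ 1 := by
      refine ⟨Real.toNNReal (min (R / 2) 1), ?_, ?_, ?_⟩
      · rw [Real.toNNReal_pos]; positivity
      · rw [Real.coe_toNNReal _ (by positivity)]
        have := min_le_left (R / 2) 1
        linarith
      · rw [Real.toNNReal_le_one]
        exact min_le_right _ _
    obtain ⟨u1, h1, h2, h3⟩ := (hosc e he0).1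
    obtain ⟨u2, h4, h5, h6⟩ := (hosc e he0).2
    have hnb : ∀ᶠ q in 𝓝 (1 : ℝ≥0), w u1 < w q ∧ w q < w u2 :=
      (hw.tendsto 1).eventually (Ioo_mem_nhds h3 h6)
    have hnb2 : ∀ᶠ q in 𝓝[≥] (1 : ℝ≥0), w u1 < w q ∧ w q < w u2 := nhdsWithin_le_nhds hnb
    rw [eventually_iff, mem_nhdsGE_iff_exists_Ico_subset] at hnb2
    obtain ⟨v, hv1, hv2⟩ := hnb2
    have hv1' : (1 : ℝ≥0) < v := hv1
    obtain ⟨r0, hr0, hr0'⟩ := exists_between hv1'
    refine ⟨min r0 (1 + e), lt_min hr0 (lt_add_of_pos_right 1 he0), fun t ht1 ht2 => ?_⟩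
    have ht3 : t ≤ r0 := ht2.trans (min_le_left _ _)
    have ht4 : t ≤ 1 + e := ht2.trans (min_le_right _ _)
    refine le_antisymm (csSup_le (hne.mono (exc_mono w ht1)) ?_)
      (csSup_le_csSup (exc_bdd w t) hne (exc_mono w ht1))
    intro l hl
    obtain ⟨p, q, g1, g2, g3, g4, rfl⟩ := hl
    rcases le_or_gt q 1 with hq | hq
    · exact le_csSup (exc_bdd w 1) ⟨p, q, g1, hq, g3, g4, rfl⟩
    have hwq : w u1 < w q ∧ w q < w u2 := hv2 ⟨hq.le, (g2.trans ht3).trans_lt hr0'⟩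
    obtain ⟨z, hz1, hz2, hz3⟩ : ∃ z : ℝ≥0, 1 - e < z ∧ z < 1 ∧ w z = w q := by
      rcases le_total u1 u2 with hc | hc
      · obtain ⟨z, hz1, hz2, hz3⟩ := ivt_nn hw hc (y := w q) (Or.inl ⟨hwq.1.le, hwq.2.le⟩)
        exact ⟨z, h1.trans_le hz1, hz2.trans_lt h5, hz3⟩
      · obtain ⟨z, hz1, hz2, hz3⟩ := ivt_nn hw hc (y := w q) (Or.inr ⟨hwq.1.le, hwq.2.le⟩)
        exact ⟨z, h4.trans_le hz1, hz2.trans_lt h2, hz3⟩
    have hzp : z ≤ p := by
      by_contra hh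
      push Not at hh
      exact g4 z hh (hz2.trans hq) (hz3.trans g3.symm)
    have e1 : (1 : ℝ) - e < p := by
      have e2 : ((1 - e : ℝ≥0) : ℝ) < p := by exact_mod_cast hz1.trans_le hzp
      rw [NNReal.coe_sub he2] at e2
      simpa using e2
    have e3 : (q : ℝ) ≤ 1 + e := by exact_mod_cast g2.trans ht4
    show (q : ℝ) - p ≤ R
    linarith
  · -- (C)
    intro h h0 hh
    rcases hh.eq_or_lt with hh | hh
    · -- the end point, by closedness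
      have hsub : Ico 0 (RR w 1) ⊆ Sp w 1 := by
        rintro x ⟨hx0, hx1⟩
        obtain ⟨l, hl, hxl⟩ := exists_lt_of_lt_csSup hne hx1
        exact mem_sp_of_lt_exc hw hl hx0 hxl
      have hcl := closure_minimal hsub (sp_closed hw 1)
      rw [closure_Ico hA.ne] at hcl
      rw [hh]
      exact hcl ⟨hA.le, le_rfl⟩
    · obtain ⟨l, hl, hxl⟩ := exists_lt_of_lt_csSup hne hh
      exact mem_sp_of_lt_exc hw hl h0 hxl

end Pool.Agent.R74.AT
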