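import Mathlib

/-! Duality between Toeplitz minors of a power series and of its inverse. -/

namespace Pool.Agent.R74.Hankel

open Matrix PowerSeries

variable {R : Type*} [CommRing R]

/-- lower triangular Toeplitz matrix of a sequence -/
def low (p : ℕ → R) (M : ℕ) : Matrix (Fin M) (Fin M) R :=
  Matrix.of fun i j => if (j : ℕ) ≤ i then p (i - j) else 0

/-- Toeplitz matrix of size `n` with entries `p (s + i - j)` (zero for negative arguments) -/
def toe (p : ℕ → R) (s n : ℕ) : Matrix (Fin n) (Fin n) R :=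
  Matrix.of fun i j => if (j : ℕ) ≤ s + i then p (s + i - j) else 0

theorem low_mul (p q : ℕ → R) (h : PowerSeries.mk p * PowerSeries.mk q = 1) (M : ℕ) :
    low p M * low q M = 1 := by
  ext i j
  simp only [low, Matrix.mul_apply, Matrix.of_apply, Matrix.one_apply]
  refine (Fin.sum_univ_eq_sum_range (fun k : ℕ => (if k ≤ (i : ℕ) then p (i - k) else 0) *
    (if (j : ℕ) ≤ k then q (k - j) else 0)) M).trans ?_
  by_cases hij : (j : ℕ) ≤ i
  · have h2 : (∑ k ∈ Finset.range M, (if k ≤ (i : ℕ) then p ((i : ℕ) - k) else 0) *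
        (if (j : ℕ) ≤ k then q (k - j) else 0)) =
        ∑ x ∈ Finset.HasAntidiagonal.antidiagonal ((i : ℕ) - (j : ℕ)), p x.1 * q x.2 := by
      symm
      have h3 : (∑ k ∈ Finset.range M, (if k ≤ (i : ℕ) then p ((i : ℕ) - k) else 0) *
        (if (j : ℕ) ≤ k then q (k - j) else 0)) =
        ∑ k ∈ (Finset.range M).filter (fun k => (j : ℕ) ≤ k ∧ k ≤ (i : ℕ)), p ((i : ℕ) - k) * q (k - j) := by
        rw [Finset.sum_filter]
        apply Finset.sum_congr rfl
        intro k _
        by_cases h4 : k ≤ (i : ℕ) <;> by_cases h5 : (j : ℕ) ≤ k <;> simp [h4, h5]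
      rw [h3]
      refine Finset.sum_nbij' (fun x : ℕ × ℕ => x.2 + (j : ℕ)) (fun k : ℕ => ((i : ℕ) - k, k - (j : ℕ))) ?_ ?_ ?_ ?_ ?_
      · intro x hx
        simp only [Finset.HasAntidiagonal.mem_antidiagonal] at hx
        simp only [Finset.mem_filter, Finset.mem_range]
        have := i.2
        omega
      · intro k hk
        simp only [Finset.mem_filter, Finset.mem_range] at hk
        simp only [Finset.HasAntidiagonal.mem_antidiagonal]
        omega
      · intro x hx
        simp only [Finset.HasAntidiagonal.mem_antidiagonal] at hx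
        ext <;> simp <;> omega
      · intro k hk
        simp only [Finset.mem_filter, Finset.mem_range] at hk
        simp only
        omega
      · intro x hx
        simp only [Finset.HasAntidiagonal.mem_antidiagonal] at hx
        have h6 : (i : ℕ) - (x.2 + j) = x.1 := by omega
        have h7 : x.2 + (j : ℕ) - j = x.2 := by omega
        simp only [h6, h7]
    rw [h2]
    have h8 := congrArg (PowerSeries.coeff ((i : ℕ) - (j : ℕ))) h
    rw [PowerSeries.coeff_mul, PowerSeries.coeff_one] at h8
    simp only [PowerSeries.coeff_mk] at h8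
    rw [h8]
    have h9 : ((i : ℕ) - j = 0) ↔ i = j := by
      rw [Fin.ext_iff]; omega
    simp only [h9]
  · rw [if_neg (by rintro rfl; exact hij le_rfl)]
    apply Finset.sum_eq_zero
    intro k _
    by_cases h4 : k ≤ (i : ℕ)
    · rw [if_neg (show ¬ (j : ℕ) ≤ k by omega), mul_zero]
    · rw [if_neg h4, zero_mul]

theorem det_low (p : ℕ → R) (h0 : p 0 = 1) (M : ℕ) : (low p M).det = 1 := by
  rw [Matrix.det_of_isLowerTriangular]
  · simp [low, h0]
  · intro i j hij
    have : ¬ ((j : ℕ) ≤ i) := by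
      have : i < j := hij
      have := Fin.lt_def.1 this
      omega
    simp only [low, Matrix.of_apply, if_neg this]

theorem rot_apply (M : ℕ) [NeZero M] (n : ℕ) (i : Fin M) :
    ((finRotate M) ^ n) i = i + (Fin.ofNat M n) := by
  induction n generalizing i with
  | zero => simp
  | succ n ih =>
    rw [pow_succ, Equiv.Perm.mul_apply, finRotate_apply, ih]
    have : (Fin.ofNat M (n + 1)) = Fin.ofNat M n + 1 := by
      ext
      simp [Fin.val_add, Fin.ofNat]
    rw [this]
    abel

theorem toe_dual (p q : ℕ → R) (h : PowerSeries.mk p * PowerSeries.mk q = 1)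
    (h0 : p 0 = 1) (n s : ℕ) (hns : 0 < s + n) :
    (toe p s n).det = (-1) ^ (n * s) * (toe q n s).det := by
  have : NeZero (s + n) := ⟨by omega⟩
  set ρ : Equiv.Perm (Fin (s + n)) := (finRotate (s + n)) ^ n with hρ
  have hρv : ∀ j : Fin (s + n), ((ρ j : Fin (s + n)) : ℕ) = if (j : ℕ) < s then j + n else j - s := by
    intro j
    rw [hρ, rot_apply]
    simp only [Fin.val_add, Fin.ofNat]
    have hj := j.2
    rw [Nat.add_mod_mod]
    split_ifs with hjs
    · exact Nat.mod_eq_of_lt (by omega)
    · rw [show (j : ℕ) + n = (j - s) + (s + n) by omega, Nat.add_mod_right]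
      exact Nat.mod_eq_of_lt (by omega)
  set K : Matrix (Fin (s + n)) (Fin (s + n)) R := (low p (s + n)).submatrix id ρ with hK
  set K' : Matrix (Fin (s + n)) (Fin (s + n)) R := (low q (s + n)).submatrix ρ id with hK'
  have hKK' : K * K' = 1 := by
    rw [hK, hK', Matrix.submatrix_mul_equiv, low_mul p q h]
    ext i j
    simp [Matrix.one_apply]
  have hdK : K.det = (-1) ^ (n * s) := by
    have h1 : K.det = (Equiv.Perm.sign ρ : ℤ) * (low p (s + n)).det := by
      rw [hK]; exact Matrix.det_permute' ρ _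
    rw [h1, det_low p h0, mul_one, hρ, map_pow, sign_finRotate]
    push_cast
    rw [← pow_mul]
    have h2 : ∀ a b : ℕ, a % 2 = b % 2 → ((-1 : R)) ^ a = (-1) ^ b := by
      intro a b hab
      rw [← Nat.div_add_mod a 2, ← Nat.div_add_mod b 2, hab, pow_add, pow_add, pow_mul, pow_mul]
      simp
    apply h2
    obtain ⟨m, hm⟩ : ∃ m, s + n = m + 1 := ⟨s + n - 1, by omega⟩
    rw [hm, Nat.add_sub_cancel]
    have hs : m = s + n - 1 := by omega
    rcases Nat.even_or_odd n with he | ho
    · obtain ⟨a, ha⟩ := he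
      have e1 : m * n = 2 * (m * a) := by rw [ha]; ring
      have e2 : n * s = 2 * (a * s) := by rw [ha]; ring
      omega
    · have e1 : m * n % 2 = m % 2 := by
        obtain ⟨a, ha⟩ := ho
        rw [ha, show m * (2 * a + 1) = 2 * (m * a) + m by ring]; omega
      have e2 : n * s % 2 = s % 2 := by
        obtain ⟨a, ha⟩ := ho
        rw [ha, show (2 * a + 1) * s = 2 * (a * s) + s by ring]; omega
      obtain ⟨a, ha⟩ := ho
      omega
  set e : Fin s ⊕ Fin n ≃ Fin (s + n) := finSumFinEquiv with he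
  set A := K.submatrix e e with hA
  set B := K'.submatrix e e with hB
  have hAB : A * B = 1 := by
    rw [hA, hB, Matrix.submatrix_mul_equiv, hKK']
    ext i j
    simp [Matrix.one_apply]
  have hdA : A.det = (-1) ^ (n * s) := by
    rw [hA, Matrix.det_submatrix_equiv_self, hdK]
  have hA22 : A.toBlocks₂₂ = toe p s n := by
    ext i j
    simp only [hA, hK, Matrix.toBlocks₂₂, Matrix.submatrix_apply, Matrix.of_apply, low, toe, id, he,
      finSumFinEquiv_apply_right, hρv, Fin.val_natAdd]
    have hi := i.2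
    have hj := j.2
    rw [if_neg (show ¬ (s + (j : ℕ) < s) by omega), show s + (j : ℕ) - s = j by omega]
  have hB11 : B.toBlocks₁₁ = toe q n s := by
    ext i j
    simp only [hB, hK', Matrix.toBlocks₁₁, Matrix.submatrix_apply, Matrix.of_apply, low, toe, id,
      he, finSumFinEquiv_apply_left, hρv, Fin.val_castAdd]
    have hi := i.2
    rw [if_pos hi, show (i : ℕ) + n = n + i by omega]
  rw [← hA22, ← hB11]
  have hAf : A = Matrix.fromBlocks A.toBlocks₁₁ A.toBlocks₁₂ A.toBlocks₂₁ A.toBlocks₂₂ :=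
    (Matrix.fromBlocks_toBlocks A).symm
  have hBf : B = Matrix.fromBlocks B.toBlocks₁₁ B.toBlocks₁₂ B.toBlocks₂₁ B.toBlocks₂₂ :=
    (Matrix.fromBlocks_toBlocks B).symm
  have h1 : A * Matrix.fromBlocks B.toBlocks₁₁ 0 B.toBlocks₂₁ 1 =
      Matrix.fromBlocks 1 A.toBlocks₁₂ 0 A.toBlocks₂₂ := by
    have h2 := hAB
    rw [hAf, hBf, Matrix.fromBlocks_multiply, ← Matrix.fromBlocks_one, Matrix.fromBlocks_inj] at h2
    rw [hAf, Matrix.fromBlocks_multiply]
    simp only [Matrix.toBlocks_fromBlocks₁₁, Matrix.toBlocks_fromBlocks₁₂,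
      Matrix.toBlocks_fromBlocks₂₁, Matrix.toBlocks_fromBlocks₂₂] at h2 ⊢
    rw [h2.1, h2.2.2.1]
    simp
  have h3 := congrArg Matrix.det h1
  rw [Matrix.det_mul, Matrix.det_fromBlocks_zero₁₂, Matrix.det_fromBlocks_zero₂₁, hdA] at h3
  simpa using h3.symm

end Pool.Agent.R74.Hankel
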