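import Mathlib
import Pool.Agent.R74.HankelDual

/-! Recursion of the Hankel determinants of the Moser-de Bruijn indicator. -/

namespace Pool.Agent.R74.Hankel

open Matrix PowerSeries

/-- indicator of the Moser-de Bruijn set -/
def ff : ℕ → ℤ
  | 0 => 1
  | (m + 1) => if (m + 1) % 4 < 2 then ff ((m + 1) / 4) else 0
decreasing_by omega

theorem ff_zero : ff 0 = 1 := by rw [ff]

theorem ff_eq (m : ℕ) : ff m = if m % 4 < 2 then ff (m / 4) else 0 := by
  cases m with
  | zero => simp [ff_zero]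
  | succ m => rw [ff]

theorem ff_one : ff 1 = 1 := by
  rw [ff_eq]; simp [ff_zero]

theorem ff_vanish (k : ℕ) : ∀ x : ℕ, x < 4 ^ k → 4 ^ k ≤ 3 * x → ff x = 0 := by
  induction k with
  | zero => intro x h1 h2; simp at h1 h2; omega
  | succ k ih =>
    intro x h1 h2
    rw [ff_eq]
    split_ifs with h
    · apply ih
      · rw [pow_succ] at h1; omega
      · rw [pow_succ] at h2; omega
    · rfl

theorem ff_shift (k : ℕ) : ∀ x : ℕ, x < 4 ^ k → ff (4 ^ k + x) = ff x := by
  induction k with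
  | zero =>
    intro x h1
    simp at h1
    subst h1
    simp [ff_one, ff_zero]
  | succ k ih =>
    intro x h1
    rw [ff_eq, ff_eq x]
    have h2 : (4 ^ (k + 1) + x) % 4 = x % 4 := by rw [pow_succ]; omega
    have h3 : (4 ^ (k + 1) + x) / 4 = 4 ^ k + x / 4 := by rw [pow_succ]; omega
    rw [h2, h3]
    split_ifs with h
    · apply ih
      rw [pow_succ] at h1; omega
    · rfl

/-- the doubled indicator -/
def aa (m : ℕ) : ℤ := ff (m / 2)

/-- the signed indicator -/
def qq (m : ℕ) : ℤ := (-1) ^ m * ff m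

theorem aa_zero : aa 0 = 1 := by simp [aa, ff_zero]

/-- the Hankel matrix -/
def hh (n : ℕ) : Matrix (Fin n) (Fin n) ℤ :=
  Matrix.of fun i j => aa (n + i + j + 2)

theorem hh_rev (n : ℕ) : (hh n).det = (Equiv.Perm.sign (Fin.revPerm : Equiv.Perm (Fin n)) : ℤ) *
    (toe aa (2 * n + 1) n).det := by
  have h0 := Matrix.det_permute' (Fin.revPerm : Equiv.Perm (Fin n)) (toe aa (2 * n + 1) n)
  refine Eq.trans ?_ h0
  congr 1
  ext i j
  have hi := i.2
  have hj := j.2
  simp only [hh, toe, Matrix.submatrix_apply, Matrix.of_apply, id, Fin.revPerm_apply, Fin.val_rev]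
  rw [if_pos (by omega)]
  congr 1
  omega

theorem toe_aa_eq (k r : ℕ) (hk : 1 ≤ k) (hr : 3 * r < 4 ^ k) :
    toe aa (2 * (4 ^ k + r) + 1) (4 ^ k + r) = toe aa (2 * r + 1) (4 ^ k + r) := by
  ext i j
  have hi := i.2
  have hj := j.2
  obtain ⟨N2, hN2⟩ : ∃ m, 4 ^ k = 4 * m := ⟨4 ^ (k - 1), by
    rw [← pow_succ']; congr 1; omega⟩
  simp only [toe, Matrix.of_apply]
  rw [if_pos (by omega)]
  split_ifs with h
  · unfold aa
    rw [show (2 * (4 ^ k + r) + 1 + (i : ℕ) - (j : ℕ)) / 2 = 4 ^ k + (2 * r + 1 + (i : ℕ) - (j : ℕ)) / 2 by omega]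
    apply ff_shift
    omega
  · unfold aa
    apply ff_vanish k
    · omega
    · omega

theorem toe_qq_eq (k r : ℕ) (hk : 1 ≤ k) (hr : 3 * r < 4 ^ k) :
    toe qq (4 ^ k + r) (2 * r + 1) = toe qq r (2 * r + 1) := by
  ext i j
  have hi := i.2
  have hj := j.2
  obtain ⟨N2, hN2⟩ : ∃ m, 4 ^ k = 4 * m := ⟨4 ^ (k - 1), by
    rw [← pow_succ']; congr 1; omega⟩
  simp only [toe, Matrix.of_apply]
  rw [if_pos (by omega)]
  split_ifs with h
  · unfold qq
    rw [show (4 ^ k + r + (i : ℕ) - (j : ℕ)) = 4 ^ k + (r + (i : ℕ) - (j : ℕ)) by omega]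
    rw [ff_shift k _ (by omega), hN2, pow_add, show 4 * N2 = 2 * (2 * N2) by ring, pow_mul]
    simp
  · unfold qq
    rw [ff_vanish k _ (by omega) (by omega), mul_zero]

theorem neg_one_pow_congr {a b : ℕ} (hab : a % 2 = b % 2) : ((-1 : ℤ)) ^ a = (-1) ^ b := by
  rw [← Nat.div_add_mod a 2, ← Nat.div_add_mod b 2, hab, pow_add, pow_add, pow_mul, pow_mul]
  simp

/-- exchange matrix -/
def exch (n : ℕ) : Matrix (Fin n) (Fin n) ℤ :=
  Matrix.of fun i j => if (i : ℕ) + j + 1 = n then 1 else 0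

theorem exch_det (n : ℕ) : (exch (n + 1)).det = (-1) ^ n * (exch n).det := by
  rw [Matrix.det_succ_row_zero, Finset.sum_eq_single (Fin.last n)]
  · have h1 : (exch (n + 1)) 0 (Fin.last n) = 1 := by
      simp [exch]
    rw [h1, mul_one]
    simp only [Fin.val_last, Fin.succAbove_last]
    congr 2
    ext i j
    simp only [exch, Matrix.submatrix_apply, Matrix.of_apply, Fin.val_succ, Fin.val_castSucc]
    congr 1
    rw [eq_iff_iff]
    omega
  · intro j _ hj
    have h1 : (exch (n + 1)) 0 j = 0 := by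
      refine if_neg ?_
      intro h
      apply hj
      ext
      simp only [Fin.val_last]
      have h2 : ((0 : Fin (n + 1)) : ℕ) = 0 := rfl
      omega
    rw [h1]; ring
  · intro h; exact absurd (Finset.mem_univ _) h

theorem sign_rev (n : ℕ) : ((Equiv.Perm.sign (Fin.revPerm : Equiv.Perm (Fin n)) : ℤˣ) : ℤ) =
    (exch n).det := by
  have h0 := Matrix.det_permute' (Fin.revPerm : Equiv.Perm (Fin n)) (1 : Matrix (Fin n) (Fin n) ℤ)
  rw [Matrix.det_one, mul_one] at h0
  refine Eq.trans ?_ (h0.symm.trans ?_)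
  · simp
  · congr 1
    ext i j
    have hi := i.2
    have hj := j.2
    simp only [exch, Matrix.submatrix_apply, Matrix.of_apply, Matrix.one_apply, id,
      Fin.revPerm_apply, Fin.ext_iff, Fin.val_rev]
    congr 1
    rw [eq_iff_iff]
    omega

theorem exch_four (n : ℕ) : (exch (n + 4)).det = (exch n).det := by
  rw [show n + 4 = n + 3 + 1 by ring, exch_det, show n + 3 = n + 2 + 1 by ring, exch_det,
    show n + 2 = n + 1 + 1 by ring, exch_det, exch_det, ← mul_assoc, ← mul_assoc, ← mul_assoc,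
    ← pow_add, ← pow_add, ← pow_add]
  rw [neg_one_pow_congr (b := 0) (by omega)]
  simp

theorem exch_four_mul (m n : ℕ) : (exch (4 * m + n)).det = (exch n).det := by
  induction m with
  | zero => rw [show 4 * 0 + n = n by ring]
  | succ m ih => rw [show 4 * (m + 1) + n = 4 * m + n + 4 by ring, exch_four, ih]

theorem exch_sq (n : ℕ) : (exch n).det * (exch n).det = 1 := by
  rw [← sign_rev, ← Units.val_mul, Int.units_mul_self, Units.val_one]

/-- the recursion step -/
theorem hh_rec (hinv : PowerSeries.mk aa * PowerSeries.mk qq = 1) (k r : ℕ) (hk : 1 ≤ k)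
    (hr : 3 * r < 4 ^ k) : (hh (4 ^ k + r)).det = (hh r).det := by
  obtain ⟨N2, hN2⟩ : ∃ m, 4 ^ k = 4 * m := ⟨4 ^ (k - 1), by
    rw [← pow_succ']; congr 1; omega⟩
  rw [hh_rev, hh_rev, sign_rev, sign_rev, toe_aa_eq k r hk hr,
    toe_dual aa qq hinv aa_zero (4 ^ k + r) (2 * r + 1) (by omega),
    toe_dual aa qq hinv aa_zero r (2 * r + 1) (by omega), toe_qq_eq k r hk hr, hN2, exch_four_mul]
  rw [neg_one_pow_congr (a := (4 * N2 + r) * (2 * r + 1)) (b := r * (2 * r + 1))]
  rw [show (4 * N2 + r) * (2 * r + 1) = 2 * (2 * N2 * (2 * r + 1)) + r * (2 * r + 1) by ring]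
  omega

theorem hh_zero_case (k n : ℕ) (h1 : 4 ^ k ≤ 3 * n) (h2 : n < 4 ^ k) : (hh n).det = 0 := by
  have hn : 0 < n := by
    have : 0 < 4 ^ k := by positivity
    omega
  by_cases h3 : 3 * n < 2 * 4 ^ k
  · apply Matrix.det_eq_zero_of_row_eq_zero (⟨n - 1, by omega⟩ : Fin n)
    intro j
    have hj := j.2
    simp only [hh, Matrix.of_apply, aa]
    apply ff_vanish k
    · omega
    · omega
  · apply Matrix.det_eq_zero_of_row_eq_zero (⟨0, by omega⟩ : Fin n)
    intro j
    have hj := j.2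
    simp only [hh, Matrix.of_apply, aa]
    apply ff_vanish k
    · omega
    · omega

theorem hh_eq (hinv : PowerSeries.mk aa * PowerSeries.mk qq = 1) (n : ℕ) :
    (hh n).det = ff n := by
  induction n using Nat.strong_induction_on with
  | _ n ih =>
    rcases Nat.eq_zero_or_pos n with h0 | h0
    · subst h0; simp [ff_zero]
    · obtain ⟨k, hk1, hk2⟩ : ∃ k, 4 ^ k ≤ n ∧ n < 4 ^ (k + 1) :=
        ⟨Nat.log 4 n, Nat.pow_log_le_self 4 (by omega), Nat.lt_pow_succ_log_self (by norm_num) n⟩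
      by_cases h3 : 4 ^ (k + 1) ≤ 3 * n
      · rw [hh_zero_case (k + 1) n h3 hk2, ff_vanish (k + 1) n hk2 h3]
      · have h4 : 3 * (n - 4 ^ k) < 4 ^ k := by
          rw [pow_succ] at h3; omega
        have h5 : n = 4 ^ k + (n - 4 ^ k) := by omega
        rcases Nat.eq_zero_or_pos k with hk | hk
        · subst hk
          have h6 : n = 1 := by simp at h4 hk1; omega
          subst h6
          simp [hh, aa, ff_one]
        · rw [h5, hh_rec hinv k _ hk h4, ff_shift k _ (by omega)]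
          apply ih
          have : 0 < 4 ^ k := by positivity
          omega

end Pool.Agent.R74.Hankel
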