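import Mathlib
import Pool.Agent.R74.HankelRec

/-! Power series identities behind the inverse of the Prouhet-Thue-Morse series. -/

namespace Pool.Agent.R74.Hankel

open Matrix PowerSeries

variable {R : Type*} [CommRing R]

theorem coeff_one_add_X_mul (n : ℕ) (P : PowerSeries R) :
    coeff (n + 1) ((1 + X) * P) = coeff (n + 1) P + coeff n P := by
  rw [add_mul, one_mul, map_add, coeff_succ_X_mul]

theorem coeff_zero_one_add_X_mul (P : PowerSeries R) :
    coeff 0 ((1 + X) * P) = coeff 0 P := by
  rw [add_mul, one_mul, map_add, coeff_zero_X_mul, add_zero]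

theorem mk_ff : (PowerSeries.mk ff) =
    (1 + X) * expand 4 (by norm_num) (PowerSeries.mk ff) := by
  ext n
  cases n with
  | zero =>
    rw [coeff_zero_one_add_X_mul, coeff_expand, coeff_mk]
    simp
  | succ n =>
    rw [coeff_one_add_X_mul, coeff_expand, coeff_expand, coeff_mk, coeff_mk, coeff_mk, ff_eq]
    have h4 : n % 4 = 0 ∨ n % 4 = 1 ∨ n % 4 = 2 ∨ n % 4 = 3 := by omega
    rcases h4 with h | h | h | h
    · rw [if_pos (by omega), if_neg (by omega), if_pos (by omega), zero_add]
      congr 1
      omega
    · rw [if_neg (by omega), if_neg (by omega), if_neg (by omega), zero_add]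
    · rw [if_neg (by omega), if_neg (by omega), if_neg (by omega), zero_add]
    · rw [if_pos (by omega), if_pos (by omega), if_neg (by omega), add_zero]

theorem mk_aa : (PowerSeries.mk aa) =
    (1 + X) * expand 2 (by norm_num) (PowerSeries.mk ff) := by
  ext n
  cases n with
  | zero =>
    rw [coeff_zero_one_add_X_mul, coeff_expand, coeff_mk]
    simp [aa]
  | succ n =>
    rw [coeff_one_add_X_mul, coeff_expand, coeff_expand, coeff_mk, coeff_mk, coeff_mk, aa]
    have h4 : n % 2 = 0 ∨ n % 2 = 1 := by omega
    rcases h4 with h | h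
    · rw [if_neg (by omega), if_pos (by omega), zero_add]
      congr 1
      omega
    · rw [if_pos (by omega), if_neg (by omega), add_zero]

theorem expand_comm' (p q : ℕ) (hp : p ≠ 0) (hq : q ≠ 0) (P : PowerSeries R) :
    expand p hp (expand q hq P) = expand q hq (expand p hp P) := by
  rw [← expand_mul, ← expand_mul]
  congr 2
  exact mul_comm _ _

theorem eq_one_of_expand (D : PowerSeries R) (h : D = expand 4 (by norm_num) D)
    (h0 : coeff 0 D = 1) : D = 1 := by
  have key : ∀ n : ℕ, coeff n D = if n = 0 then 1 else 0 := by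
    intro n
    induction n using Nat.strong_induction_on with
    | _ n ih =>
      rcases Nat.eq_zero_or_pos n with hn | hn
      · subst hn; simp [h0]
      · rw [if_neg (by omega), h, coeff_expand]
        split_ifs with h4
        · rw [ih (n / 4) (by omega), if_neg (by omega)]
        · rfl
  ext n
  rw [key, coeff_one]

theorem ff_D : (PowerSeries.mk ff) * expand 2 (by norm_num) (PowerSeries.mk ff) * (1 - X) = 1 := by
  apply eq_one_of_expand
  · set B := PowerSeries.mk ff with hB
    have h1 : B = (1 + X) * expand 4 (by norm_num) B := mk_ff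
    have h2 : expand 2 (by norm_num) B = (1 + X ^ 2) * expand 4 (by norm_num)
        (expand 2 (by norm_num) B) := by
      conv_lhs => rw [h1]
      rw [map_mul, map_add, map_one, expand_X, expand_comm']
    have h3 : expand 4 (by norm_num) (B * expand 2 (by norm_num) B * (1 - X)) =
        expand 4 (by norm_num) B * expand 4 (by norm_num) (expand 2 (by norm_num) B) *
          (1 - X ^ 4) := by
      rw [map_mul, map_mul, map_sub, map_one, expand_X]
    rw [h3]
    conv_lhs => rw [h2]
    conv_lhs => 
      rw [mul_assoc]
      arg 1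
      rw [h1]
    ring
  · rw [coeff_zero_eq_constantCoeff, map_mul, map_mul, map_sub]
    rw [constantCoeff_expand, constantCoeff_one, constantCoeff_X]
    rw [← coeff_zero_eq_constantCoeff_apply, coeff_mk, ff_zero]
    norm_num

theorem inv_aa : PowerSeries.mk aa * PowerSeries.mk qq = 1 := by
  have h1 : (PowerSeries.mk qq) = evalNegHom (PowerSeries.mk ff) := by
    ext n
    rw [coeff_mk, evalNegHom, coeff_rescale, coeff_mk, qq]
  have h2 : expand 2 (by norm_num) (PowerSeries.mk ff) =
      evalNegHom (expand 2 (by norm_num) (PowerSeries.mk ff)) := by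
    ext n
    rw [evalNegHom, coeff_rescale, coeff_expand]
    split_ifs with h
    · obtain ⟨m, rfl⟩ := h
      rw [pow_mul]; simp
    · simp
  have h3 := congrArg evalNegHom ff_D
  rw [map_mul, map_mul, map_sub, map_one, evalNegHom_X, ← h2, ← h1] at h3
  rw [mk_aa]
  linear_combination h3

theorem hh_det (n : ℕ) : (hh n).det = ff n := hh_eq inv_aa n

/-! ### the series over the field with two elements -/

/-- reduction of the indicator -/
noncomputable def B2 : PowerSeries (ZMod 2) := PowerSeries.mk fun n => (ff n : ZMod 2)

/-- reduction of the doubled indicator -/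
noncomputable def A2 : PowerSeries (ZMod 2) := PowerSeries.mk fun n => (aa n : ZMod 2)

theorem B2_eq : B2 = PowerSeries.map (Int.castRingHom (ZMod 2)) (PowerSeries.mk ff) := by
  ext n; simp [B2]

theorem A2_eq : A2 = PowerSeries.map (Int.castRingHom (ZMod 2)) (PowerSeries.mk aa) := by
  ext n; simp [A2]

theorem B2_rec : B2 = (1 + X) * expand 4 (by norm_num) B2 := by
  conv_lhs => rw [B2_eq, mk_ff, map_mul, map_add, map_one, map_X, map_expand, ← B2_eq]

theorem A2_rec : A2 = (1 + X) * expand 2 (by norm_num) B2 := by
  conv_lhs => rw [A2_eq, mk_aa, map_mul, map_add, map_one, map_X, map_expand, ← B2_eq]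

theorem two_eq_zero' : (2 : PowerSeries (ZMod 2)) = 0 := by
  have : (2 : ZMod 2) = 0 := by decide
  have h := congrArg (C (R := ZMod 2)) this
  rw [map_zero] at h
  rw [← h]
  rfl

/-- Frobenius on power series over the field with two elements -/
theorem expand_two_eq (P : PowerSeries (ZMod 2)) : expand 2 (by norm_num) P = P ^ 2 := by
  ext n
  rw [coeff_expand, pow_two, coeff_mul]
  have hsq : ∀ z : ZMod 2, z * z = z := by decide
  have hch : ∀ z : ZMod 2, z + z = 0 := by decide
  -- the antidiagonal sum cancels in pairs
  split_ifs with h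
  · obtain ⟨m, rfl⟩ := h
    rw [Nat.mul_div_cancel_left _ (by norm_num)]
    have hmem : ((m, m) : ℕ × ℕ) ∈ Finset.HasAntidiagonal.antidiagonal (2 * m) := by
      rw [Finset.HasAntidiagonal.mem_antidiagonal]; ring
    rw [← Finset.add_sum_erase _ _ hmem]
    have h1 : ∑ x ∈ (Finset.HasAntidiagonal.antidiagonal (2 * m)).erase (m, m),
        (coeff x.1) P * (coeff x.2) P = 0 := by
      apply Finset.sum_involution (fun x _ => (x.2, x.1))
      · intro x _
        rw [mul_comm ((coeff x.2) P)]
        exact hch _
      · intro x hx _ h2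
        rw [Finset.mem_erase, Finset.HasAntidiagonal.mem_antidiagonal] at hx
        apply hx.1
        have h3 := congrArg Prod.fst h2
        simp only at h3
        ext
        · simp only; omega
        · simp only; omega
      · intro x hx
        rw [Finset.mem_erase, Finset.HasAntidiagonal.mem_antidiagonal] at hx ⊢
        refine ⟨?_, by simp only; omega⟩
        intro h2
        apply hx.1
        have h3 := congrArg Prod.fst h2
        have h4 := congrArg Prod.snd h2
        simp only at h3 h4
        ext
        · simp only; omega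
        · simp only; omega
      · intro x _; rfl
    rw [h1, add_zero, hsq]
  · symm
    apply Finset.sum_involution (fun x _ => (x.2, x.1))
    · intro x _
      rw [mul_comm ((coeff x.2) P)]
      exact hch _
    · intro x hx _ h2
      rw [Finset.HasAntidiagonal.mem_antidiagonal] at hx
      have h3 := congrArg Prod.fst h2
      simp only at h3
      apply h
      omega
    · intro x hx
      rw [Finset.HasAntidiagonal.mem_antidiagonal] at hx ⊢
      simp only; omega
    · intro x _; rfl

theorem expand_four_eq (P : PowerSeries (ZMod 2)) : expand 4 (by norm_num) P = P ^ 4 := by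
  have h1 : expand 4 (by norm_num) P = expand 2 (by norm_num) (expand 2 (by norm_num) P) := by
    rw [← expand_mul]
  rw [h1, expand_two_eq, expand_two_eq, ← pow_mul]

theorem B2_cube : (1 + X) * B2 ^ 3 = 1 := by
  have h1 := B2_rec
  rw [expand_four_eq] at h1
  have h0 : B2 ≠ 0 := by
    intro h
    have h2 := congrArg (coeff 0) h
    rw [B2, coeff_mk, ff_zero] at h2
    simp at h2
  have h2 : B2 * ((1 + X) * B2 ^ 3) = B2 * 1 := by
    rw [mul_one]
    conv_rhs => rw [h1]
    ring
  exact mul_left_cancel₀ h0 h2

theorem A2_cube : A2 ^ 3 = 1 + X := by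
  have h1 := A2_rec
  rw [expand_two_eq] at h1
  rw [h1]
  have h2 := B2_cube
  linear_combination (1 + X) * ((1 + X) * B2 ^ 3 + 1) * h2

theorem A2_const : constantCoeff A2 = 1 := by
  rw [← coeff_zero_eq_constantCoeff_apply, A2, coeff_mk, aa_zero]
  simp

theorem cube_unique (W : PowerSeries (ZMod 2)) (h0 : constantCoeff W = 1)
    (h : W ^ 3 = 1 + X) : W = A2 := by
  have h1 : (W - A2) * (W ^ 2 + W * A2 + A2 ^ 2) = 0 := by
    linear_combination h - A2_cube
  rcases mul_eq_zero.1 h1 with h2 | h2
  · exact sub_eq_zero.1 h2
  · exfalso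
    have h3 := congrArg constantCoeff h2
    rw [map_add, map_add, map_mul, map_pow, map_pow, h0, A2_const] at h3
    exact absurd h3 (by decide)

/-- the Prouhet-Thue-Morse sequence -/
def tm (n : ℕ) : ZMod 2 := ((Nat.digits 2 n).sum : ZMod 2)

/-- the Prouhet-Thue-Morse series -/
noncomputable def FF : PowerSeries (ZMod 2) := PowerSeries.mk tm

theorem tm_zero : tm 0 = 0 := by simp [tm]

theorem tm_even (n : ℕ) : tm (2 * n) = tm n := by
  rcases Nat.eq_zero_or_pos n with h | h
  · subst h; rfl
  · unfold tm
    have h1 : Nat.digits 2 (2 * n) = 0 :: Nat.digits 2 n := by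
      have := Nat.digits_add_two_add_one 0 (2 * n - 1)
      rw [show 2 * n - 1 + 1 = 2 * n by omega] at this
      rw [this]
      congr 1
      · omega
      · congr 1; omega
    rw [h1]; simp

theorem tm_odd (n : ℕ) : tm (2 * n + 1) = 1 + tm n := by
  unfold tm
  have h1 : Nat.digits 2 (2 * n + 1) = 1 :: Nat.digits 2 n := by
    have := Nat.digits_add_two_add_one 0 (2 * n)
    rw [this]
    congr 1
    · omega
    · congr 1; omega
  rw [h1]; simp

end Pool.Agent.R74.Hankel
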