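import Mathlib
import Pool.Agent.R74.HankelSer

/-! The inverse of the Prouhet-Thue-Morse series and its Hankel determinants. -/

namespace Pool.Agent.R74.Hankel

open Matrix PowerSeries

theorem FF_eq : FF = (1 + X) * expand 2 (by norm_num) FF +
    X * expand 2 (by norm_num) (PowerSeries.mk 1) := by
  ext n
  cases n with
  | zero =>
    rw [map_add, coeff_zero_one_add_X_mul, coeff_zero_X_mul, coeff_expand, FF, coeff_mk]
    simp
  | succ n =>
    rw [map_add, coeff_one_add_X_mul, coeff_succ_X_mul, coeff_expand, coeff_expand, coeff_expand,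
      FF, coeff_mk, coeff_mk, coeff_mk, coeff_mk]
    have h4 : n % 2 = 0 ∨ n % 2 = 1 := by omega
    rcases h4 with h | h
    · rw [if_neg (by omega), if_pos (by omega), if_pos (by omega), zero_add]
      obtain ⟨m, rfl⟩ : ∃ m, n = 2 * m := ⟨n / 2, by omega⟩
      rw [tm_odd, Nat.mul_div_cancel_left _ (by norm_num), Pi.one_apply, add_comm]
    · rw [if_pos (by omega), if_neg (by omega), if_neg (by omega), add_zero, add_zero]
      obtain ⟨m, hm⟩ : ∃ m, n + 1 = 2 * m := ⟨(n + 1) / 2, by omega⟩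
      rw [hm, tm_even, Nat.mul_div_cancel_left _ (by norm_num)]

theorem FF_alg : (1 + X) ^ 2 * FF = (1 + X) ^ 3 * FF ^ 2 + X := by
  have h1 : (expand 2 (by norm_num) (PowerSeries.mk 1) : PowerSeries (ZMod 2)) * (1 + X) ^ 2 = 1 := by
    have h2 := congrArg (expand 2 (by norm_num)) (mk_one_mul_one_sub_eq_one (ZMod 2))
    rw [map_mul, map_sub, map_one, expand_X] at h2
    linear_combination h2 + (expand 2 (by norm_num) (PowerSeries.mk 1) : PowerSeries (ZMod 2)) *
      (X + X ^ 2) * two_eq_zero'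
  have h3 := FF_eq
  rw [expand_two_eq] at h3
  linear_combination (1 + X) ^ 2 * h3 + X * h1

theorem FF_const : constantCoeff FF = 0 := by
  rw [← coeff_zero_eq_constantCoeff_apply, FF, coeff_mk, tm_zero]

theorem FF_coeff_one : coeff 1 FF = 1 := by
  rw [FF, coeff_mk]
  simp [tm]

/-- the algebraic equation of the inverse series -/
theorem inv_eq (G : PowerSeries (ZMod 2)) (hG : constantCoeff G = 0) (h : FF.subst G = X) :
    1 + X * (1 + G) = A2 := by
  apply cube_unique
  · rw [map_add, map_mul, constantCoeff_X, zero_mul, map_one, add_zero]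
  · have hs : HasSubst G := HasSubst.of_constantCoeff_zero' hG
    have h1 := congrArg (substAlgHom (R := ZMod 2) hs) FF_alg
    rw [map_add, map_mul, map_mul, map_pow, map_pow, map_pow, map_add, map_one] at h1
    have h2 : substAlgHom (R := ZMod 2) hs X = G := substAlgHom_X hs
    have h3 : substAlgHom (R := ZMod 2) hs FF = X := by
      rw [coe_substAlgHom]; exact h
    rw [h2, h3] at h1
    have h4 := two_eq_zero'
    linear_combination (-X) * h1 + (X * (1 + G) + 2 * X ^ 2 * (1 + G) ^ 2) * h4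

theorem ff_mem (m : ℕ) : ff m = 0 ∨ ff m = 1 := by
  induction m using Nat.strong_induction_on with
  | _ m ih =>
    rcases Nat.eq_zero_or_pos m with h0 | h0
    · subst h0; right; exact ff_zero
    · rw [ff_eq]
      split_ifs with h
      · exact ih (m / 4) (by omega)
      · left; rfl

theorem coeff_inv (G : PowerSeries (ZMod 2)) (hG : constantCoeff G = 0) (h : FF.subst G = X)
    (m : ℕ) (hm : 1 ≤ m) : (((coeff m G).val : ℕ) : ℤ) = aa (m + 1) := by
  have h1 := congrArg (coeff (m + 1)) (inv_eq G hG h)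
  rw [map_add, coeff_one, if_neg (by omega), zero_add, coeff_succ_X_mul, map_add, coeff_one,
    if_neg (by omega), zero_add, A2, coeff_mk] at h1
  rw [h1]
  rcases ff_mem ((m + 1) / 2) with h2 | h2
  · rw [aa, h2]; simp
  · rw [aa, h2]; simp [ZMod.val_one]

theorem ex_iff (n : ℕ) : (∃ s : Finset ℕ, n = ∑ k ∈ s, 4 ^ k) ↔
    (n % 4 < 2 ∧ ∃ s : Finset ℕ, n / 4 = ∑ k ∈ s, 4 ^ k) := by
  constructor
  · rintro ⟨s, rfl⟩
    have key : ∑ k ∈ s, 4 ^ k = (if 0 ∈ s then 1 else 0) +
        4 * ∑ k ∈ (s.erase 0).image (fun k => k - 1), 4 ^ k := by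
      have h1 : ∑ k ∈ (s.erase 0).image (fun k => k - 1), 4 ^ k =
          ∑ k ∈ s.erase 0, 4 ^ (k - 1) := by
        rw [Finset.sum_image]
        intro a ha b hb hab
        simp only [Finset.coe_erase, Set.mem_diff, Finset.mem_coe, Set.mem_singleton_iff] at ha hb
        simp only at hab
        omega
      have h2 : 4 * ∑ k ∈ s.erase 0, 4 ^ (k - 1) = ∑ k ∈ s.erase 0, 4 ^ k := by
        rw [Finset.mul_sum]
        apply Finset.sum_congr rfl
        intro k hk
        rw [Finset.mem_erase] at hk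
        rw [← pow_succ']
        congr 1
        omega
      rw [h1, h2]
      split_ifs with h0
      · rw [← Finset.add_sum_erase _ _ h0]; simp
      · rw [Finset.erase_eq_of_notMem h0]; simp
    refine ⟨?_, (s.erase 0).image (fun k => k - 1), ?_⟩
    · rw [key]; split_ifs <;> omega
    · rw [key]; split_ifs <;> omega
  · rintro ⟨h1, s, hs⟩
    have h2 : 4 * ∑ k ∈ s, 4 ^ k = ∑ k ∈ s.map ⟨Nat.succ, Nat.succ_injective⟩, 4 ^ k := by
      rw [Finset.sum_map, Finset.mul_sum]
      apply Finset.sum_congr rfl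
      intro k _
      rw [← pow_succ']; rfl
    have h3 : n % 4 = 0 ∨ n % 4 = 1 := by omega
    rcases h3 with h3 | h3
    · exact ⟨s.map ⟨Nat.succ, Nat.succ_injective⟩, by rw [← h2, ← hs]; omega⟩
    · refine ⟨insert 0 (s.map ⟨Nat.succ, Nat.succ_injective⟩), ?_⟩
      rw [Finset.sum_insert (by simp), ← h2, ← hs]
      omega

open Classical in
theorem ff_ite (n : ℕ) : ff n = if (∃ s : Finset ℕ, n = ∑ k ∈ s, 4 ^ k) then 1 else 0 := by
  induction n using Nat.strong_induction_on with
  | _ n ih =>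
    rcases Nat.eq_zero_or_pos n with h0 | h0
    · subst h0
      rw [ff_zero, if_pos ⟨∅, by simp⟩]
    · rw [ff_eq]
      by_cases h : n % 4 < 2
      · rw [if_pos h, ih (n / 4) (by omega)]
        congr 1
        rw [eq_iff_iff, ex_iff n]
        exact ⟨fun h5 => ⟨h, h5⟩, fun h5 => h5.2⟩
      · rw [if_neg h, if_neg]
        intro h5
        exact h ((ex_iff n).1 h5).1

theorem hankel_eq (G : PowerSeries (ZMod 2)) (hG : constantCoeff G = 0) (h : FF.subst G = X)
    (n : ℕ) (hn : 1 ≤ n) :
    (Matrix.of fun i j : Fin n =>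
      (((coeff (n + ((i : ℕ) + 1) + ((j : ℕ) + 1) - 1) G).val : ℕ) : ℤ)).det = ff n := by
  rw [← hh_det]
  congr 1
  ext i j
  simp only [hh, Matrix.of_apply]
  rw [coeff_inv G hG h _ (by omega)]
  congr 1
  omega

end Pool.Agent.R74.Hankel
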